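import Mathlib

/-!
Finite groups in which the `m`-th powers have few conjugates: the primes which do not divide `m`.
-/

set_option autoImplicit false

namespace Pool.Agent.U218.PC

/-- the elements of `p`-power order commute with the conjugates of an element with less than `p`
conjugates -/
lemma comm_conj {G : Type*} [Group G] [Finite G] {p b : ℕ} (hp : p.Prime) (hb : b < p) {τ : G}
    (hτ : (Set.range fun g : G => g * τ * g⁻¹).ncard ≤ b) {s : G} {k : ℕ} (hs : s ^ p ^ k = 1)
    (g : G) : s * (g * τ * g⁻¹) * s⁻¹ = g * τ * g⁻¹ := by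
  classical
  obtain ⟨f, hf⟩ : ∃ f : G → G, f = fun c => s * c * s⁻¹ := ⟨_, rfl⟩
  obtain ⟨c, hc⟩ : ∃ c, c = g * τ * g⁻¹ := ⟨_, rfl⟩
  have hit : ∀ n : ℕ, f^[n] c = s ^ n * c * (s ^ n)⁻¹ := by
    intro n
    induction n with
    | zero => simp
    | succ n ih =>
      rw [Function.iterate_succ_apply', ih, hf, pow_succ']
      group
  have hper : Function.IsPeriodicPt f (p ^ k) c := by
    change f^[p ^ k] c = c
    rw [hit, hs]
    simp
  have hdvd : Function.minimalPeriod f c ∣ p ^ k := hper.minimalPeriod_dvd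
  have hle : Function.minimalPeriod f c ≤ b := by
    refine le_trans ?_ hτ
    set n := Function.minimalPeriod f c with hn
    have h1 : ((Finset.range n).image fun i => f^[i] c).card = n := by
      rw [Finset.card_image_of_injOn, Finset.card_range]
      intro i hi j hj hij
      refine Function.iterate_injOn_Iio_minimalPeriod ?_ ?_ hij
      · simpa using hi
      · simpa using hj
    rw [← h1, ← Set.ncard_coe_finset]
    apply Set.ncard_le_ncard _ (Set.toFinite _)
    intro y hy
    rw [Finset.mem_coe, Finset.mem_image] at hy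
    obtain ⟨i, -, rfl⟩ := hy
    rw [hit]
    refine ⟨s ^ i * g, ?_⟩
    beta_reduce
    rw [hc]
    group
  have hone : Function.minimalPeriod f c = 1 := by
    obtain ⟨l, -, hl⟩ := (Nat.dvd_prime_pow hp).mp hdvd
    rcases Nat.eq_zero_or_pos l with h0 | h0
    · rw [hl, h0, pow_zero]
    · exfalso
      have h1 : p ≤ p ^ l := Nat.le_self_pow h0.ne' p
      omega
  have h2 := Function.minimalPeriod_eq_one_iff_isFixedPt.mp hone
  have h3 : f c = c := h2
  rw [hf] at h3
  rw [← hc]
  exact h3

/-- a prime which divides the order of a group divides the index of every subgroup without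
nontrivial normal subgroups, if the `m`-th powers have less than `p` conjugates -/
theorem prime_dvd_index {G : Type*} [Group G] [Finite G] (H : Subgroup G)
    (hcore : H.normalCore = ⊥) {p m b : ℕ} (hp : p.Prime) (hpm : ¬ p ∣ m) (hb : b < p)
    (hconj : ∀ σ : G, (Set.range fun g : G => g * σ ^ m * g⁻¹).ncard ≤ b)
    (hdvd : p ∣ Nat.card G) : p ∣ H.index := by
  classical
  by_contra hnd
  have hpf : Fact p.Prime := ⟨hp⟩
  obtain ⟨σ, hσ⟩ := exists_prime_orderOf_dvd_card' p hdvd
  obtain ⟨τ, hτ⟩ : ∃ τ, τ = σ ^ m := ⟨_, rfl⟩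
  have hτ1 : τ ≠ 1 := by
    rw [hτ]
    intro h
    exact hpm (hσ ▸ orderOf_dvd_of_pow_eq_one h)
  have hτp : τ ^ p = 1 := by
    rw [hτ, ← pow_mul, mul_comm, pow_mul, ← hσ, pow_orderOf_eq_one, one_pow]
  have hτc : (Set.range fun g : G => g * τ * g⁻¹).ncard ≤ b := by
    rw [hτ]
    exact hconj σ
  let S : Sylow p G := default
  -- every conjugate of `τ` is in `S`
  have hS : ∀ g : G, g * τ * g⁻¹ ∈ S := by
    intro g
    obtain ⟨c, hc⟩ : ∃ c, c = g * τ * g⁻¹ := ⟨_, rfl⟩
    rw [← hc]
    have hcp : c ^ p = 1 := by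
      rw [hc, conj_pow, hτp]
      simp
    have hQ : IsPGroup p (Subgroup.zpowers c) := by
      intro x
      refine ⟨1, ?_⟩
      obtain ⟨x, hx⟩ := x
      obtain ⟨n, rfl⟩ := Subgroup.mem_zpowers_iff.mp hx
      apply Subtype.ext
      simp only [Subgroup.coe_pow, pow_one, Subgroup.coe_one]
      rw [← zpow_natCast, ← zpow_mul, mul_comm, zpow_mul, zpow_natCast, hcp, one_zpow]
    have h1 := hQ.inf_normalizer_sylow S
    have h2 : c ∈ Subgroup.zpowers c ⊓ Subgroup.normalizer (S : Set G) := by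
      refine Subgroup.mem_inf.mpr ⟨Subgroup.mem_zpowers c, Subgroup.mem_normalizer_iff.mpr ?_⟩
      have hcomm : ∀ s ∈ S, c * s * c⁻¹ = s := by
        intro s hs
        obtain ⟨k, hk⟩ := S.isPGroup' ⟨s, hs⟩
        have hk' : s ^ p ^ k = 1 := by
          have := congrArg Subtype.val hk
          simpa using this
        have h3 := comm_conj hp hb hτc hk' g
        rw [← hc] at h3
        have h4 : s * c = c * s := by
          rw [mul_inv_eq_iff_eq_mul] at h3
          exact h3
        rw [← h4, mul_inv_cancel_right]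
      intro s
      constructor
      · intro hs
        rw [hcomm s hs]
        exact hs
      · intro hs
        have h3 := hcomm _ hs
        have h4 : c * s * c⁻¹ = s := by
          have h5 : c⁻¹ * (c * (c * s * c⁻¹) * c⁻¹) * c = c⁻¹ * (c * s * c⁻¹) * c := by rw [h3]
          have h6 : c⁻¹ * (c * (c * s * c⁻¹) * c⁻¹) * c = c * s * c⁻¹ := by group
          have h7 : c⁻¹ * (c * s * c⁻¹) * c = s := by group
          rw [h6, h7] at h5
          exact h5
        rwa [h4] at hs
    rw [h1] at h2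
    exact h2.2
  -- a conjugate of `S` is in `H`
  obtain ⟨x, hx⟩ := S.isPGroup'.nonempty_fixed_point_of_prime_not_dvd_card (α := G ⧸ H) hnd
  obtain ⟨g₀, rfl⟩ := QuotientGroup.mk_surjective x
  have hSH : ∀ s ∈ S, g₀⁻¹ * s * g₀ ∈ H := by
    intro s hs
    have h1 := hx ⟨s, hs⟩
    have h2 : ((s * g₀ : G) : G ⧸ H) = (g₀ : G ⧸ H) := h1
    rw [QuotientGroup.eq] at h2
    have h3 := H.inv_mem h2
    have h4 : ((s * g₀)⁻¹ * g₀)⁻¹ = g₀⁻¹ * s * g₀ := by group
    rwa [h4] at h3
  have hmem : τ ∈ H.normalCore := by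
    intro g
    have h1 := hSH _ (hS (g₀ * g))
    have h2 : g₀⁻¹ * (g₀ * g * τ * (g₀ * g)⁻¹) * g₀ = g * τ * g⁻¹ := by group
    rwa [h2] at h1
  rw [hcore, Subgroup.mem_bot] at hmem
  exact hτ1 hmem

/-- the condition on the conjugates passes to quotients -/
lemma conj_quot {G G' : Type*} [Group G] [Group G'] [Finite G] {f : G →* G'}
    (hf : Function.Surjective f) {m b : ℕ}
    (hconj : ∀ σ : G, (Set.range fun g : G => g * σ ^ m * g⁻¹).ncard ≤ b) (σ : G') :
    (Set.range fun g : G' => g * σ ^ m * g⁻¹).ncard ≤ b := by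
  obtain ⟨σ, rfl⟩ := hf σ
  have h : (Set.range fun g : G' => g * f σ ^ m * g⁻¹) = f '' (Set.range fun g : G =>
      g * σ ^ m * g⁻¹) := by
    ext y
    constructor
    · rintro ⟨g, rfl⟩
      obtain ⟨g, rfl⟩ := hf g
      exact ⟨_, ⟨g, rfl⟩, by simp⟩
    · rintro ⟨_, ⟨g, rfl⟩, rfl⟩
      exact ⟨f g, by simp⟩
  rw [h]
  exact (Set.ncard_image_le (Set.toFinite _)).trans (hconj σ)

end Pool.Agent.U218.PC
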