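import Mathlib
import Pool.Agent.U218.PC.Grp

/-!
Galois extensions such that the `m`-th powers in the Galois group have few conjugates.
-/

set_option autoImplicit false

namespace Pool.Agent.U218.PC

open Module

/-- `E / K` is Galois, and the `m`-th powers of the elements of the Galois group have at most `b`
conjugates -/
structure PCE (m b : ℕ) (K E : Type) [Field K] [Field E] [Algebra K E] : Prop where
  gal : IsGalois K E
  conj : ∀ σ : Gal(E/K), (Set.range fun g : Gal(E/K) => g * σ ^ m * g⁻¹).ncard ≤ b

lemma PCE.of_algHom {m b : ℕ} {K E' E : Type} [Field K] [Field E'] [Field E] [Algebra K E']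
    [Algebra K E] [FiniteDimensional K E] (h : PCE m b K E) (f : E' →ₐ[K] E) [IsGalois K E'] :
    PCE m b K E' := by
  let _ := f.toRingHom.toAlgebra
  have := IsScalarTower.of_algebraMap_eq' f.comp_algebraMap.symm
  have := h.gal
  exact ⟨inferInstance, conj_quot (f := AlgEquiv.restrictNormalHom E')
    (AlgEquiv.restrictNormalHom_surjective E) h.conj⟩

section

variable {K L : Type} [Field K] [Field L] [Algebra K L] [FiniteDimensional K L] [IsGalois K L]

/-- a prime which divides the degree of the Galois closure divides the degree -/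
theorem closure_dvd (E' : IntermediateField K L) {p m b : ℕ} (hp : p.Prime) (hpm : ¬ p ∣ m)
    (hb : b < p) (hPC : PCE m b K (IntermediateField.normalClosure K E' L))
    (hdvd : p ∣ finrank K (IntermediateField.normalClosure K E' L)) : p ∣ finrank K E' := by
  classical
  obtain ⟨E'', hE''⟩ : ∃ E'' : IntermediateField K L,
    E'' = IntermediateField.normalClosure K E' L := ⟨_, rfl⟩
  rw [← hE''] at hPC hdvd
  have hgal : IsGalois K E'' := hPC.gal
  have hle : E' ≤ E'' := by
    rw [hE'']
    exact IntermediateField.le_normalClosure E'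
  let π : Gal(L/K) →* Gal(E''/K) := AlgEquiv.restrictNormalHom E''
  have hπ : Function.Surjective π := AlgEquiv.restrictNormalHom_surjective L
  have hker : π.ker = E''.fixingSubgroup := IntermediateField.restrictNormalHom_ker E''
  have hker' : π.ker ≤ E'.fixingSubgroup := by
    rw [hker]
    exact IntermediateField.fixingSubgroup_antitone hle
  obtain ⟨H, hH⟩ : ∃ H : Subgroup Gal(E''/K), H = E'.fixingSubgroup.map π := ⟨_, rfl⟩
  have hmem : ∀ σ : Gal(L/K), π σ ∈ H → σ ∈ E'.fixingSubgroup := by
    intro σ hσ
    rw [hH, Subgroup.mem_map] at hσ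
    obtain ⟨h, hh, hhσ⟩ := hσ
    have h1 : h⁻¹ * σ ∈ π.ker := by
      rw [MonoidHom.mem_ker, map_mul, map_inv, hhσ, inv_mul_cancel]
    have h2 := E'.fixingSubgroup.mul_mem hh (hker' h1)
    rwa [mul_inv_cancel_left] at h2
  have hidx : H.index = finrank K E' := by
    rw [hH, Subgroup.index_map, sup_eq_left.mpr hker', MonoidHom.range_eq_top.mpr hπ,
      Subgroup.index_top, mul_one]
    exact (IntermediateField.finrank_eq_fixingSubgroup_index L E').symm
  have hcore : H.normalCore = ⊥ := by
    rw [eq_bot_iff]
    intro σ' hσ'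
    obtain ⟨σ, rfl⟩ := hπ σ'
    rw [Subgroup.mem_bot, ← MonoidHom.mem_ker, hker, IntermediateField.mem_fixingSubgroup_iff]
    have h1 : ∀ f : Gal(L/K), f⁻¹ * σ * f ∈ E'.fixingSubgroup := by
      intro f
      apply hmem
      have h2 := hσ' (π f⁻¹)
      simpa using h2
    have h2 : E'' ≤ IntermediateField.fixedField (Subgroup.zpowers σ) := by
      rw [hE'', IntermediateField.normalClosure_def'']
      refine iSup_le fun f => ?_
      intro y hy
      obtain ⟨e, he, rfl⟩ := hy
      rw [IntermediateField.mem_fixedField_iff]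
      intro g hg
      have h3 : Subgroup.zpowers σ ≤ MulAction.stabilizer Gal(L/K) (f e) := by
        rw [Subgroup.zpowers_le]
        have h4 := (IntermediateField.mem_fixingSubgroup_iff E' _).mp (h1 f) e he
        have h5 : f ((f⁻¹ * σ * f) e) = f e := by rw [h4]
        have h6 : f ((f⁻¹ * σ * f) e) = (f * (f⁻¹ * σ * f)) e := rfl
        rw [h6, mul_assoc, mul_inv_cancel_left] at h5
        exact h5
      exact h3 hg
    intro y hy
    have h3 := h2 hy
    rw [IntermediateField.mem_fixedField_iff] at h3
    exact h3 σ (Subgroup.mem_zpowers σ)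
  rw [← hidx]
  have hfin : Finite Gal(E''/K) := inferInstance
  refine prime_dvd_index H hcore hp hpm hb hPC.conj ?_
  rwa [IsGalois.card_aut_eq_finrank]

end

end Pool.Agent.U218.PC
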