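import Mathlib
import Pool.Agent.N715.AC.Dis
import Pool.Agent.U218.PC.Fld

/-!
The absolute values of the elements of the field generated by the conjugates of an element of
bounded degree over a tamely ramified Galois extension such that the `m`-th powers have few
conjugates.
-/

set_option autoImplicit false
set_option linter.unusedSectionVars false

namespace Pool.Agent.U218.PC

open NumberField Module Polynomial
open Pool.Agent.N715.AC
open Pool.Agent.W238.Leh
open Pool.Agent.H627.LP hiding det_ineq det_ineq' local_gain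
open Pool.Agent.H627.LR (res res_spec res_eq)
open Pool.Agent.H627.LU (exists_H')
open Pool.Agent.H420R3 (mi nv TP ew mem_TP v_smul nv_pos v_fixed_le v_lt_one_iff card_inertia)
open Pool.Agent.R829.BG (mul_close)
open Pool.Agent.R829.BH
open scoped Pointwise

noncomputable section

open Pool.Agent.N715.AC.Dis in
theorem dis' (K : Type) [Field K] [NumberField K] (L : Type) [Field L] [NumberField L]
    [Algebra K L] [IsGalois K L] (P : Ideal (𝓞 K)) [P.IsMaximal] (hP0 : P ≠ ⊥)
    (p : ℕ) (hp : p.Prime) (hpP : (p : 𝓞 K) ∈ P)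
    (E : IntermediateField K L) {m b : ℕ} (hm : 1 ≤ m) (hE : PCE m b K E) (x : L) (r : ℕ)
    (hr : (minpoly E x).natDegree ≤ r) (hrp : r < p)
    (hram : ∀ u ∈ TP E P, ¬ p ∣ (mi u).ramificationIdx (𝓞 K)) :
    ∀ w ∈ TP L P, ∀ z ∈ CF K x, w z < 1 →
      w z ≤ Real.exp (-(ew K w / (r.factorial * (b * P.absNorm ^ (m + 1)) : ℕ))) := by
  intro w hw z hz hwz
  classical
  have hlo := H420R3.liesOver_of_mem hP0 hw
  have hGE : IsGalois K E := hE.gal
  set 𝔮 : Ideal (𝓞 E) := (mi w).under (𝓞 E) with h𝔮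
  have hloE : 𝔮.under (𝓞 K) = P := by
    rw [h𝔮, Ideal.under_under]
    exact hlo.over.symm
  have hEm : 𝔮.IsMaximal := Ideal.isMaximal_comap_of_isIntegral_of_isMaximal (mi w)
  have hqlo : 𝔮.LiesOver P := ⟨hloE.symm⟩
  have hq0 : 𝔮 ≠ ⊥ := Ideal.ne_bot_of_liesOver_of_ne_bot hP0 𝔮
  have hap : ¬ p ^ 1 ∣ 𝔮.ramificationIdx (𝓞 K) := by
    let u₀ : IsDedekindDomain.HeightOneSpectrum (𝓞 E) := ⟨𝔮, hEm.isPrime, hq0⟩
    have hu : mi (FinitePlace.mk u₀) = 𝔮 := by
      unfold mi
      rw [FinitePlace.maximalIdeal_mk]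
    have hT : FinitePlace.mk u₀ ∈ TP E P := by
      rw [mem_TP hP0, hu]
      exact ⟨hEm.isPrime, hqlo⟩
    have h1 := hram _ hT
    rwa [hu, ← pow_one p] at h1
  have hpN := p_le_absNorm hP0 hp hpP
  have he : 𝔮.ramificationIdx (𝓞 K) ≤ b * P.absNorm ^ (m + 1) := by
    have h1 := ram_bound (K := K) (E := E) hP0 m b 1 p hm hp hpP (fun σ _ _ _ _ => hE.conj σ)
      hEm.isPrime hloE hap
    refine h1.trans ?_
    rw [pow_one, pow_succ, mul_comm p]
    exact Nat.mul_le_mul_left _ (Nat.mul_le_mul_left _ hpN)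
  obtain ⟨J, hJI, hJfix, hJcard⟩ := exists_H' (L := E) hP0 hw hw (σ := 1)
    (by rw [one_smul]) he
  have hJfix' : ∀ h ∈ J, ∀ e ∈ E, h e = e := fun h hh e he => hJfix h hh ⟨e, he⟩
  -- the residue characteristic
  have hwp : w (p : L) < 1 := by
    have h4 : (algebraMap (𝓞 K) (𝓞 L) (p : 𝓞 K)) ∈ mi w := by
      have h5 : (p : 𝓞 K) ∈ (mi w).under (𝓞 K) := by
        rw [← hlo.over]
        exact hpP
      exact h5
    rw [map_natCast] at h4
    have h5 := (v_lt_one_iff w _).mpr h4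
    simpa using h5
  have hcop := w_nat hp hwp
  -- the uniformizer
  obtain ⟨π₀, hπ1, hπ2⟩ := Ideal.exists_mem_pow_notMem_pow_succ (mi w) (H420R3.mi_ne_bot w)
    (Ideal.IsMaximal.ne_top inferInstance) 1
  rw [pow_one] at hπ1
  have hπ0 : (π₀ : L) ≠ 0 := by
    rw [RingOfIntegers.coe_ne_zero_iff]
    rintro rfl
    exact hπ2 (Submodule.zero_mem _)
  have hπ1' : w (π₀ : L) < 1 := (v_lt_one_iff w π₀).mpr hπ1
  have hπ2' : ¬ w (π₀ : L) ≤ (nv w ^ 2)⁻¹ := fun h => hπ2 ((H420R3.v_le_iff w π₀ 2).mp h)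
  -- the group theory
  have hcard := card_le_of_hom J (CF K x).fixingSubgroup (tch hπ0 J hJI) r.factorial
    (Nat.factorial_pos r)
    (by
      intro δ hδ
      have h1 := tch_one hπ0 hJI hδ
      apply mem_fix
      intro ρ
      refine fix_of_conj E x hr hrp (hJfix' _ δ.2) ?_ ρ
      intro l hl hdvd
      refine prime_dvd_Kr (K := K) hπ0 hπ1' hπ2' hcop hp hl (hdvd.trans ?_)
      have h2 := orderOf_dvd_natCard (⟨δ, h1⟩ : Kr (K := K) w hπ0)
      rwa [← Subgroup.orderOf_coe] at h2)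
    (by
      intro δ hδ
      apply mem_fix
      intro ρ
      exact pow_fact_conj E x hr (hJfix' _ hδ) ρ)
  -- conclusion
  have h1 := v_fixed_le w (J ⊓ (CF K x).fixingSubgroup) (inf_le_left.trans hJI) (y := z)
    (fun h hh => (IntermediateField.mem_fixingSubgroup_iff _ _).mp hh.2 z hz) hwz
  refine h1.trans ?_
  have hlog := H420R3.log_nv_pos w
  rw [← Real.exp_log (nv_pos w), ← Real.exp_nat_mul, ← Real.exp_neg, Real.exp_le_exp,
    neg_le_neg_iff, ← card_inertia hP0 hw]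
  have hpos : (0 : ℝ) < (r.factorial * (b * P.absNorm ^ (m + 1)) : ℕ) := by
    have h2 : 0 < P.absNorm := lt_of_lt_of_le hp.pos hpN
    have h3 := Nat.factorial_pos r
    have h4 : 0 < b := by
      refine lt_of_lt_of_le ?_ (hE.conj 1)
      rw [Set.ncard_pos (Set.toFinite _)]
      exact Set.range_nonempty _
    positivity
  rw [div_le_iff₀ hpos]
  have h2 : (Nat.card ((mi w).inertia Gal(L/K)) : ℝ) ≤
      Nat.card (J ⊓ (CF K x).fixingSubgroup : Subgroup Gal(L/K)) *
        (r.factorial * (b * P.absNorm ^ (m + 1)) : ℕ) := by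
    have h3 : Nat.card ((mi w).inertia Gal(L/K)) ≤
      Nat.card (J ⊓ (CF K x).fixingSubgroup : Subgroup Gal(L/K)) *
        (r.factorial * (b * P.absNorm ^ (m + 1))) := by
      calc _ ≤ (b * P.absNorm ^ (m + 1)) * Nat.card J := hJcard
        _ ≤ (b * P.absNorm ^ (m + 1)) * (r.factorial *
            Nat.card (J ⊓ (CF K x).fixingSubgroup : Subgroup Gal(L/K))) :=
          Nat.mul_le_mul_left _ hcard
        _ = _ := by ring
    exact_mod_cast h3
  calc _ ≤ (Nat.card (J ⊓ (CF K x).fixingSubgroup : Subgroup Gal(L/K)) *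
        (r.factorial * (b * P.absNorm ^ (m + 1)) : ℕ) : ℝ) * Real.log (nv w) :=
        mul_le_mul_of_nonneg_right h2 hlog.le
    _ = _ := by ring

end

end Pool.Agent.U218.PC
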