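import Mathlib
import Pool.Agent.N715.AC.Frb
import Pool.Agent.U218.PC.Fld

/-!
A pair of conjugates which is a Frobenius pair at many places: extensions of Galois extensions such
that the `m`-th powers have few conjugates.
-/

set_option autoImplicit false
set_option linter.unusedSectionVars false

namespace Pool.Agent.U218.PC

open NumberField Module Polynomial
open Pool.Agent.N715.AC Pool.Agent.N715.AC.FrbAux
open Pool.Agent.H627.LP (FrobAt exists_place_smul)
open Pool.Agent.H420R3 (mi nv TP ew)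
open scoped Pointwise

noncomputable section

theorem frob' (K : Type) [Field K] [NumberField K] (L : Type) [Field L] [NumberField L]
    [Algebra K L] [IsGalois K L] (P : Ideal (𝓞 K)) [P.IsMaximal] (hP0 : P ≠ ⊥)
    (E : IntermediateField K L) {m b : ℕ} (hE : PCE m b K E) (x : L) (r j : ℕ) (hmj : m ∣ j)
    (hr : b * (minpoly E x).natDegree ≤ r) :
    ∃ τ : Gal(L/K), ∀ σ : Gal(L/K), ∑ v ∈ TP L P, ew K v ≤
      r * ∑ v ∈ TP L P, (open Classical in if FP K v (P.absNorm ^ j) (σ x) (σ (τ x)) then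
        ew K v else 0) := by
  classical
  obtain ⟨Q, hQ⟩ : ∃ Q, Q = P.absNorm ^ j := ⟨_, rfl⟩
  obtain ⟨v₀, hv₀⟩ := Pool.Agent.H420R3.TP_nonempty (M := L) (P := P) hP0
  obtain ⟨i, rfl⟩ := hmj
  obtain ⟨φ₁, hφ1, hφ2⟩ := Pool.Agent.H420R3.exists_frob (K := K) hP0 hv₀ i
  obtain ⟨φ, hφd⟩ : ∃ φ, φ = φ₁ ^ m := ⟨_, rfl⟩
  have hφ : FrobAt v₀ φ Q := by
    have h1 : FrobAt v₀ φ₁ (P.absNorm ^ i) := ⟨hφ1, hφ2⟩
    have h2 := h1.pow m
    rw [hQ, mul_comm, pow_mul, hφd]
    exact h2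
  have hEgal : IsGalois K E := hE.gal
  -- the restrictions of the conjugates
  let π : Gal(L/K) →* Gal(E/K) := AlgEquiv.restrictNormalHom E
  have hπ : Function.Surjective π := AlgEquiv.restrictNormalHom_surjective L
  obtain ⟨R, hR⟩ : ∃ R : Set Gal(E/K), R = Set.range fun g : Gal(E/K) => g * π φ₁ ^ m * g⁻¹ :=
    ⟨_, rfl⟩
  have hRf : R.Finite := Set.toFinite R
  have hRc : hRf.toFinset.card ≤ b := by
    rw [← Set.ncard_eq_toFinset_card R hRf, hR]
    exact hE.conj _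
  have hRm : ∀ g : Gal(L/K), π (g * φ * g⁻¹) ∈ R := by
    intro g
    rw [hR, hφd]
    exact ⟨π g, by simp⟩
  let lift : Gal(E/K) → Gal(L/K) := Function.surjInv hπ
  have hlift : ∀ ρ, π (lift ρ) = ρ := Function.surjInv_eq hπ
  have hfixm : ∀ h : Gal(L/K), π h = 1 → h ∈ E.fixingSubgroup := by
    intro h hh
    rw [← IntermediateField.restrictNormalHom_ker E, MonoidHom.mem_ker]
    exact hh
  -- the finite set of values
  obtain ⟨X, hX⟩ : ∃ X : Finset L, X = (hRf.toFinset ×ˢ ((minpoly E x).rootSet L).toFinset).image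
    fun z => lift z.1 z.2 := ⟨_, rfl⟩
  have hint : IsIntegral E x := Algebra.IsIntegral.isIntegral x
  have hmem : ∀ h : Gal(L/K), h ∈ E.fixingSubgroup → h x ∈ ((minpoly E x).rootSet L).toFinset := by
    intro h hh
    rw [Set.mem_toFinset, Polynomial.mem_rootSet]
    refine ⟨minpoly.ne_zero hint, ?_⟩
    have h1 := (IntermediateField.mem_fixingSubgroup_iff E h).mp hh
    let h' : L ≃ₐ[E] L := (IntermediateField.fixingSubgroupEquiv E) ⟨h, hh⟩
    have h2 : h x = h' x := rfl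
    have h3 := Polynomial.aeval_algHom_apply (h' : L →ₐ[E] L) x (minpoly E x)
    rw [minpoly.aeval, map_zero] at h3
    rw [h2]
    exact h3
  have hcard : X.card ≤ r := by
    rw [hX]
    refine Finset.card_image_le.trans (le_trans ?_ hr)
    rw [Finset.card_product]
    apply Nat.mul_le_mul hRc
    rw [← Set.ncard_eq_toFinset_card']
    exact Polynomial.ncard_rootSet_le _ _
  have hmemX : ∀ g : Gal(L/K), (g * φ * g⁻¹) x ∈ X := by
    intro g
    obtain ⟨ψ, hψ⟩ : ∃ ψ, ψ = g * φ * g⁻¹ := ⟨_, rfl⟩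
    have h0 := hRm g
    rw [← hψ] at h0 ⊢
    have h1 : π ((lift (π ψ))⁻¹ * ψ) = 1 := by
      rw [map_mul, map_inv, hlift, inv_mul_cancel]
    have h2 := hmem _ (hfixm _ h1)
    rw [hX, Finset.mem_image]
    refine ⟨(π ψ, ((lift (π ψ))⁻¹ * ψ) x), ?_, ?_⟩
    · rw [Finset.mem_product]
      exact ⟨hRf.mem_toFinset.mpr h0, h2⟩
    · have h3 : lift (π ψ) (((lift (π ψ))⁻¹ * ψ) x) = (lift (π ψ) * ((lift (π ψ))⁻¹ * ψ)) x := rfl
      change lift (π ψ) (((lift (π ψ))⁻¹ * ψ) x) = ψ x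
      rw [h3, mul_inv_cancel_left]
  have hex : ∀ v ∈ TP L P, ∃ y ∈ X, FP K v Q x y := by
    intro v hv
    have hlo := Pool.Agent.H420R3.liesOver_of_mem hP0 hv
    have hlo₀ := Pool.Agent.H420R3.liesOver_of_mem hP0 hv₀
    obtain ⟨g, hg⟩ := Ideal.exists_smul_eq_of_isGaloisGroup P (mi v₀) (mi v) Gal(L/K)
    exact ⟨(g * φ * g⁻¹) x, hmemX g, g * φ * g⁻¹, frob_conj hφ hg, rfl⟩
  obtain ⟨W, hW⟩ : ∃ W : L → ℝ, W = fun y => ∑ v ∈ TP L P, if FP K v Q x y then ew K v else 0 :=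
    ⟨_, rfl⟩
  have hW0 : ∀ y, 0 ≤ W y := by
    intro y
    rw [hW]
    refine Finset.sum_nonneg fun v _ => ?_
    split_ifs
    · exact (Pool.Agent.H420R3.ew_pos _).le
    · exact le_rfl
  have htot : ∑ v ∈ TP L P, ew K v ≤ ∑ y ∈ X, W y := by
    rw [hW, Finset.sum_comm]
    refine Finset.sum_le_sum fun v hv => ?_
    obtain ⟨y, hy, hfp⟩ := hex v hv
    calc ew K v = if FP K v Q x y then ew K v else 0 := by rw [if_pos hfp]
      _ ≤ _ := Finset.single_le_sum (f := fun y => if FP K v Q x y then ew K v else 0)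
        (fun z _ => by
          beta_reduce
          split_ifs
          · exact (Pool.Agent.H420R3.ew_pos _).le
          · exact le_rfl) hy
  have hne : X.Nonempty := ⟨_, hmemX 1⟩
  obtain ⟨y, hy, hmax⟩ := Finset.exists_max_image X W hne
  have h1 : ∑ v ∈ TP L P, ew K v ≤ r * W y := by
    refine htot.trans ((Finset.sum_le_card_nsmul X W (W y) hmax).trans ?_)
    rw [nsmul_eq_mul]
    exact mul_le_mul_of_nonneg_right (by exact_mod_cast hcard) (hW0 y)
  have hpos : 0 < ∑ v ∈ TP L P, ew K v :=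
    Finset.sum_pos (fun v _ => Pool.Agent.H420R3.ew_pos v) ⟨v₀, hv₀⟩
  have hWy : W y ≠ 0 := by
    intro h0
    rw [h0, mul_zero] at h1
    linarith
  rw [hW] at hWy
  obtain ⟨v₁, -, hv₁⟩ := Finset.exists_ne_zero_of_sum_ne_zero hWy
  have hfp : FP K v₁ Q x y := by
    by_contra h
    rw [if_neg h] at hv₁
    exact hv₁ rfl
  obtain ⟨τ, -, hτ⟩ := hfp
  refine ⟨τ, fun σ => h1.trans ?_⟩
  refine mul_le_mul_of_nonneg_left ?_ (Nat.cast_nonneg r)
  rw [hW, ← hQ, hτ]
  have h2 := sum_smul (K := K) (L := L) hP0 σ (fun v => FP K v Q x y)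
    (fun v => FP K v Q (σ x) (σ y)) (fun v w hvw h => fp_conj h hvw)
  convert h2 using 2

end

end Pool.Agent.U218.PC
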