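import Mathlib
import Pool.Agent.N715.AC.Key3
import Pool.Agent.N715.AC.Int
import Pool.Agent.U218.PC.Frb
import Pool.Agent.U218.PC.Dis
import Pool.Agent.U218.PC.Par

/-!
The dichotomy.
-/

set_option autoImplicit false
set_option linter.unusedSectionVars false

namespace Pool.Agent.U218.PC

open NumberField Module Polynomial
open Pool.Agent.N715.AC
open Pool.Agent.W238.Leh
open Pool.Agent.H627.LP (Wnd FrobAt)
open Pool.Agent.H627.LR (GR GoodK)
open Pool.Agent.H420R3 (mi nv TP ew sum_ew ew_pos)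
open Pool.Agent.R829.DL (fod fod_iter canH_hom)
open Pool.Agent.R829.BG (ax JJ)
open Pool.Agent.N715.AB (ev ResLem HgtLem fod_inf finrank_fod exists_frac GD fod_le_affine)

noncomputable section

/-- degrees over larger fields -/
lemma deg_anti {K L : Type} [Field K] [Field L] [Algebra K L] [FiniteDimensional K L]
    {E E' : IntermediateField K L} (h : E ≤ E') (x : L) :
    (minpoly E' x).natDegree ≤ (minpoly E x).natDegree := by
  let _ : Algebra E E' := (IntermediateField.inclusion h).toRingHom.toAlgebra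
  have : IsScalarTower E E' L := IsScalarTower.of_algebraMap_eq fun z => rfl
  have h1 := minpoly.dvd_map_of_isScalarTower E E' x
  have hne : (minpoly E x).map (algebraMap E E') ≠ 0 :=
    (Polynomial.Monic.map _ (minpoly.monic (Algebra.IsIntegral.isIntegral x))).ne_zero
  have h2 := Polynomial.natDegree_le_of_dvd h1 hne
  rwa [Polynomial.natDegree_map] at h2

/-- **the dichotomy** -/
theorem key4 (hLoc : LocLem) (hBad : BadLem) (hTwo : TwoLem)
    (hTrc : TraceDesc2) (hRnk : RankLem) (hPer : PerLem) (hHG : HgtLem)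
    (m₀ b₀ : ℕ) (hm₀ : 1 ≤ m₀)
    (q c a nb : ℕ) (A : ℝ) (κ r : ℕ) (hκ : 1 ≤ κ) (hr : 1 ≤ r) (hq : 2 ≤ q) (hE : 0 ≤ hC A a) :
    ∃ (C₁ : ℝ) (J : ℕ), 0 < C₁ ∧
      ∀ (K : Type) [Field K] [NumberField K] (L : Type) [Field L] [NumberField L] [Algebra K L]
        [IsGalois K L] (F : Fin (1 + 1) → MvPolynomial (Fin (1 + 1)) K),
        GD K F q c a nb A κ →
        ∀ (E : IntermediateField K L), PCE m₀ b₀ K E → ∀ (x : Fin (1 + 1) → L), x ≠ 0 →
        Wnd F x → 0 < canH F q x →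
        (x 1 ≠ 0 → b₀ * (minpoly E (x 0 / x 1)).natDegree ≤ r) →
        ∀ (P : Ideal (𝓞 K)) [P.IsMaximal], P ≠ ⊥ → (nb : 𝓞 K) ∉ P → (r.factorial : 𝓞 K) ∉ P →
        (∀ p : ℕ, p.Prime → (p : 𝓞 K) ∈ P →
          ∀ u ∈ TP (IntermediateField.normalClosure K
            (E ⊓ IntermediateField.adjoin K {x 0 / x 1} : IntermediateField K L) L) P,
          ¬ p ∣ (mi u).ramificationIdx (𝓞 K)) →
        1 / (C₁ * (P.absNorm : ℝ) ^ J) ≤ canH F q x ∨
          ∃ W : ℕ, (q : ℝ) ^ (2 * W) ≤ C₁ * (P.absNorm : ℝ) ^ J ∧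
            (finrank K (fod K ((act F)^[2 * W] x)) : ℝ) ≤ C₁ * (P.absNorm : ℝ) ^ J := by
  classical
  obtain ⟨E₀, hE₀⟩ : ∃ E₀ : ℝ, E₀ = hC A a * (c + q : ℕ) := ⟨_, rfl⟩
  have hE0 : 0 ≤ E₀ := by rw [hE₀]; positivity
  obtain ⟨j, M, J, C, hmj, hj, hM, hC, hpar⟩ := par3 m₀ hm₀ E₀ κ r (r ^ 2 + b₀ + m₀ + 1) q hE0 hκ hr hq
  refine ⟨C ^ 2 + C + 1, 2 * J, by positivity, ?_⟩
  intro K _ _ L _ _ _ _ F hGD E hPCE x hx hw hpos hmp P _ hP0 hnb hrf htame
  obtain ⟨N, hN⟩ : ∃ N, N = P.absNorm := ⟨_, rfl⟩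
  rw [← hN]
  have hN2 : 2 ≤ N := by
    rw [hN]
    exact norm_two hP0
  have hN1 : (1 : ℝ) ≤ N := by exact_mod_cast (by omega : 1 ≤ N)
  have hNJ : (1 : ℝ) ≤ (N : ℝ) ^ J := one_le_pow₀ hN1
  have hNJ2 : (N : ℝ) ^ (2 * J) = (N : ℝ) ^ J * (N : ℝ) ^ J := by
    rw [two_mul, pow_add]
  have hbig1 : C * (N : ℝ) ^ J ≤ (C ^ 2 + C + 1) * (N : ℝ) ^ (2 * J) := by
    rw [hNJ2]
    have e1 : C * (N : ℝ) ^ J ≤ (C ^ 2 + C + 1) * (N : ℝ) ^ J := by
      apply mul_le_mul_of_nonneg_right _ (by positivity)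
      nlinarith [sq_nonneg C]
    have e2 : (C ^ 2 + C + 1) * (N : ℝ) ^ J ≤ (C ^ 2 + C + 1) * ((N : ℝ) ^ J * (N : ℝ) ^ J) := by
      apply mul_le_mul_of_nonneg_left _ (by positivity)
      nlinarith
    exact e1.trans e2
  have hbig2 : (C * (N : ℝ) ^ J) * (C * (N : ℝ) ^ J) ≤ (C ^ 2 + C + 1) * (N : ℝ) ^ (2 * J) := by
    rw [hNJ2]
    have e1 : (C * (N : ℝ) ^ J) * (C * (N : ℝ) ^ J) = C ^ 2 * ((N : ℝ) ^ J * (N : ℝ) ^ J) := by
      ring
    rw [e1]
    apply mul_le_mul_of_nonneg_right _ (by positivity)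
    linarith
  have hbig3 : (1 : ℝ) ≤ (C ^ 2 + C + 1) * (N : ℝ) ^ (2 * J) := by
    have e1 : (1 : ℝ) ≤ (N : ℝ) ^ (2 * J) := one_le_pow₀ hN1
    nlinarith [sq_nonneg C, mul_nonneg (show 0 ≤ C ^ 2 + C by positivity)
      (show (0 : ℝ) ≤ (N : ℝ) ^ (2 * J) by positivity)]
  by_cases hx1 : x 1 = 0
  · right
    refine ⟨0, by simpa using hbig3, ?_⟩
    rw [Nat.mul_zero, Function.iterate_zero, id, fod_inf hx1, Nat.cast_one]
    exact hbig3
  have hmp' := hmp hx1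
  by_contra hcon
  push Not at hcon
  obtain ⟨hcon1, hcon2⟩ := hcon
  obtain ⟨S₁, S₂, W, b, Q, R, hb, hQ, hR, hS₁, hbQ, hMW, h2, h3, h4, hRC, hdC⟩ := hpar N hN2
  obtain ⟨p, hp, hpP⟩ := exists_char hP0
  have hrp : r < p := by
    by_contra hlt
    push Not at hlt
    apply hrf
    obtain ⟨m, hm⟩ := (Nat.Prime.dvd_factorial hp).mpr hlt
    rw [hm, Nat.cast_mul]
    exact Ideal.mul_mem_right _ _ hpP
  have hax0 : ax F x 0 = x 0 / x 1 := rfl
  obtain ⟨E', hE'⟩ : ∃ E' : IntermediateField K L,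
    E' = E ⊓ IntermediateField.adjoin K {x 0 / x 1} := ⟨_, rfl⟩
  have hEgal : IsGalois K E := hPCE.gal
  have hfdL : FiniteDimensional K L := Module.Finite.of_restrictScalars_finite ℚ K L
  have hE'le : E' ≤ E := hE' ▸ inf_le_left
  have hb₀ : 1 ≤ b₀ := by
    refine le_trans ?_ (hPCE.conj 1)
    rw [Nat.one_le_iff_ne_zero, ← Nat.pos_iff_ne_zero, Set.ncard_pos (Set.toFinite _)]
    exact Set.range_nonempty _
  have hmp1 : (minpoly E (x 0 / x 1)).natDegree ≤ r :=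
    (Nat.le_mul_of_pos_left _ hb₀).trans hmp'
  have hmpE' : (minpoly E' (x 0 / x 1)).natDegree ≤ r := by
    have h5 := (IntL.deg_le E (x 0 / x 1)).trans hmp1
    rwa [← hE'] at h5
  rw [← hE'] at htame
  obtain ⟨E'', hE''⟩ : ∃ E'' : IntermediateField K L,
    E'' = IntermediateField.normalClosure K E' L := ⟨_, rfl⟩
  rw [← hE''] at htame
  have hle' : E' ≤ E'' := by
    rw [hE'']
    exact IntermediateField.le_normalClosure E'
  have hle'' : E'' ≤ E := by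
    rw [hE'', ← IntermediateField.normalClosure_of_normal E]
    exact IntermediateField.normalClosure_mono E' E hE'le
  have hnor : IsGalois K E'' := by
    have h5 : Normal K E'' := by
      rw [hE'']
      infer_instance
    exact ⟨⟩
  have hPCE'' : PCE m₀ b₀ K E'' := hPCE.of_algHom (IntermediateField.inclusion hle'')
  have hmpE'' : (minpoly E'' (x 0 / x 1)).natDegree ≤ r := (deg_anti hle' _).trans hmpE'
  obtain ⟨τ, hτ⟩ := frob' K L P hP0 E hPCE (x 0 / x 1) r j hmj hmp'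
  have hdis := dis' K L P hP0 p hp hpP E'' hm₀ hPCE'' (x 0 / x 1) r hmpE'' hrp (htame p hp hpP)
  rw [← hN] at hdis hτ
  rw [← hQ] at hτ
  have hlogN : 0 < Real.log N := Real.log_pos (by exact_mod_cast hN2)
  have hκ0 : (0 : ℝ) < κ := by exact_mod_cast hκ
  have he : r.factorial * (b₀ * N ^ (m₀ + 1)) ≤ N ^ (r ^ 2 + b₀ + m₀ + 1) := by
    have e0 : N ^ (r ^ 2 + b₀ + m₀ + 1) = N ^ (r ^ 2) * (N ^ b₀ * N ^ (m₀ + 1)) := by
      rw [← pow_add, ← pow_add]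
      congr 1
      ring
    rw [e0]
    apply Nat.mul_le_mul
    · calc r.factorial ≤ r ^ r := Nat.factorial_le_pow r
        _ ≤ (2 ^ r) ^ r := Nat.pow_le_pow_left (Nat.lt_two_pow_self).le r
        _ = 2 ^ (r ^ 2) := by rw [← pow_mul, sq]
        _ ≤ N ^ (r ^ 2) := Nat.pow_le_pow_left hN2 _
    · apply Nat.mul_le_mul_right
      exact (Nat.lt_two_pow_self).le.trans (Nat.pow_le_pow_left hN2 _)
  have he' : ((r.factorial * (b₀ * N ^ (m₀ + 1)) : ℕ) : ℝ) ≤ (N : ℝ) ^ (r ^ 2 + b₀ + m₀ + 1) := by exact_mod_cast he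
  have hfin : (finrank ℚ K : ℝ) ≤ κ := by exact_mod_cast hGD.deg
  have hfin0 : (0 : ℝ) < finrank ℚ K := by exact_mod_cast finrank_pos
  have hr0 : (0 : ℝ) < r := by exact_mod_cast hr
  have hqW : (1 : ℝ) ≤ (q : ℝ) ^ W := one_le_pow₀ (by exact_mod_cast (by omega : 1 ≤ q))
  have hb1 : 1 ≤ b := by
    rw [hb]
    exact Nat.mul_pos (by omega) hS₁
  have hq2W : (q : ℝ) ^ (2 * W) ≤ C * (N : ℝ) ^ J := by
    refine le_trans ?_ hdC
    have e1 : q ^ (2 * W) ≤ 2 * (Q * b) * b * q ^ (2 * W) := by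
      apply Nat.le_mul_of_pos_left
      have : 0 < Q * b := Nat.mul_pos (by omega) hb1
      positivity
    exact_mod_cast e1
  refine local_two hLoc hBad hTwo hTrc hRnk hPer hHG hGD.hB hq hGD.hF hGD.hc hP0
    (hGD.good P inferInstance hP0 hnb) hx hw hpos (τ := τ) (r := r)
    (e := r.factorial * (b₀ * N ^ (m₀ + 1))) (Q := Q) (b := b) (S₁ := S₁) (S₂ := S₂) (W := W) (M := M)
    (R := R) hr (Nat.mul_pos (Nat.factorial_pos r) (Nat.mul_pos hb₀ (by positivity))) ?_ ?_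
    (ω := Real.log N / (κ * (N : ℝ) ^ (r ^ 2 + b₀ + m₀ + 1))) (by positivity) ?_ hb hS₁ hR hbQ hM hMW
    ?_ ?_ ?_ ?_ ?_ ?_
  · intro σ
    rw [hax0]
    exact hτ σ
  · intro w hw' z hz hz1
    rw [hax0] at hz
    exact hdis w hw' z hz hz1
  · rw [← hN]
    have e1 : (finrank ℚ K : ℝ) * (r.factorial * (b₀ * N ^ (m₀ + 1)) : ℕ) ≤ κ * (N : ℝ) ^ (r ^ 2 + b₀ + m₀ + 1) :=
      mul_le_mul hfin he' (by positivity) (by positivity)
    have e2 : (0 : ℝ) < κ * (N : ℝ) ^ (r ^ 2 + b₀ + m₀ + 1) := by positivity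
    calc (finrank ℚ K : ℝ) * (r.factorial * (b₀ * N ^ (m₀ + 1)) : ℕ) *
          (Real.log N / (κ * (N : ℝ) ^ (r ^ 2 + b₀ + m₀ + 1))) ≤
          (κ * (N : ℝ) ^ (r ^ 2 + b₀ + m₀ + 1)) * (Real.log N / (κ * (N : ℝ) ^ (r ^ 2 + b₀ + m₀ + 1))) :=
            mul_le_mul_of_nonneg_right e1 (by positivity)
      _ = Real.log N := by field_simp
  · rw [← hE₀]
    linarith
  · rw [← hE₀]
    linarith
  · rw [← hE₀, ← hN]
    have e1 : (M : ℝ) * Real.log N / (192 * r ^ 2 * κ) ≤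
        M * Real.log N / (192 * r ^ 2 * finrank ℚ K) := by
      apply div_le_div_of_nonneg_left (by positivity) (by positivity)
      apply mul_le_mul_of_nonneg_left hfin (by positivity)
    linarith
  · have e1 := hcon2 W (hq2W.trans hbig1)
    have e2 : (R : ℝ) < finrank K (fod K ((act F)^[2 * W] x)) :=
      lt_of_le_of_lt (hRC.trans hbig1) e1
    exact_mod_cast e2.le
  · have e1 := hcon2 W (hq2W.trans hbig1)
    have e2 : ((2 * (Q * b) * b * q ^ (2 * W) : ℕ) : ℝ) <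
      finrank K (fod K ((act F)^[2 * W] x)) := lt_of_le_of_lt (hdC.trans hbig1) e1
    exact_mod_cast e2
  · have e1 : (q : ℝ) ^ W ≤ C * (N : ℝ) ^ J := by
      refine le_trans ?_ hq2W
      exact pow_le_pow_right₀ (by exact_mod_cast (by omega : 1 ≤ q)) (by omega)
    have e2 : (R : ℝ) * (q : ℝ) ^ W ≤ (C ^ 2 + C + 1) * (N : ℝ) ^ (2 * J) :=
      (mul_le_mul hRC e1 (by positivity) (by positivity)).trans hbig2
    have e3 : 0 < (C ^ 2 + C + 1) * (N : ℝ) ^ (2 * J) := by positivity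
    calc (R : ℝ) * ((q : ℝ) ^ W * canH F q x) = (R * (q : ℝ) ^ W) * canH F q x := by ring
      _ ≤ ((C ^ 2 + C + 1) * (N : ℝ) ^ (2 * J)) * (1 / ((C ^ 2 + C + 1) * (N : ℝ) ^ (2 * J))) :=
          mul_le_mul e2 hcon1.le hpos.le e3.le
      _ = 1 := by field_simp

end

end Pool.Agent.U218.PC
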